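import Pool.Agent.H54.WB.TargetsA

/-!
# The number of the vertices
-/

set_option autoImplicit false

namespace Pool.Agent.H10.WB

open Pool.Agent.H54.WB
open Pool.Agent.H8.PL (GridF)

theorem ct_fib {V : Type} [Finite V] (S T : V → Prop) (R : V → V → Prop) (m : ℕ)
    (h1 : ∀ y, S y → ∃ x, T x ∧ R x y)
    (h2 : ∀ y x x', S y → T x → T x' → R x y → R x' y → x = x')
    (h3 : ∀ x, T x → {y | S y ∧ R x y}.ncard = m) :
    {y | S y}.ncard = {x | T x}.ncard * m := by
  classical
  have := Fintype.ofFinite V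
  have hf : ∀ y, ∃ x, S y → T x ∧ R x y := by
    intro y
    by_cases hy : S y
    · obtain ⟨x, hx⟩ := h1 y hy
      exact ⟨x, fun _ => hx⟩
    · exact ⟨y, fun h => absurd h hy⟩
  choose f hf using hf
  have e1 : ∀ P : V → Prop, {y | P y}.ncard = (Finset.univ.filter P).card := by
    intro P
    rw [← Set.ncard_coe_finset]
    congr 1
    ext y
    simp
  rw [e1, e1, Finset.card_eq_sum_card_fiberwise (f := f) (t := Finset.univ.filter T)]
  · rw [Finset.sum_congr rfl (g := fun _ => m)]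
    · rw [Finset.sum_const, smul_eq_mul]
    · intro x hx
      have hx' : T x := (Finset.mem_filter.1 hx).2
      rw [← h3 x hx', e1]
      congr 1
      ext y
      simp only [Finset.mem_filter, Finset.mem_univ, true_and]
      constructor
      · rintro ⟨hy, rfl⟩
        exact ⟨hy, (hf y hy).2⟩
      · rintro ⟨hy, hR⟩
        exact ⟨hy, h2 y _ _ hy (hf y hy).1 hx' (hf y hy).2 hR⟩
  · intro y hy
    have hy' : S y := (Finset.mem_filter.1 hy).2
    exact Finset.mem_coe.2 (Finset.mem_filter.2 ⟨Finset.mem_univ _, (hf y hy').1⟩)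

theorem ct_Iio (n : ℕ) : (Set.Iio n).ncard = n := by
  have : Set.Iio n = ↑(Finset.range n) := by
    ext i
    simp
  rw [this, Set.ncard_coe_finset, Finset.card_range]

theorem ct_part {V : Type} [Finite V] (ro : V → ℕ) (N : ℕ) (h : ∀ v, ro v < N) :
    Nat.card V = ∑ i ∈ Finset.range N, {v | ro v = i}.ncard := by
  classical
  have := Fintype.ofFinite V
  rw [Nat.card_eq_fintype_card, ← Finset.card_univ,
    Finset.card_eq_sum_card_fiberwise (f := ro) (t := Finset.range N)]
  · refine Finset.sum_congr rfl fun i _ => ?_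
    rw [← Set.ncard_coe_finset]
    congr 1
    ext y
    simp
  · intro y _
    exact Finset.mem_coe.2 (Finset.mem_range.2 (h y))

theorem ct_sum (c : ℕ → ℕ) (d L : ℕ) (h : ∀ l, 1 ≤ l → l < L → c l = c (l + 1) * Tw l d) :
    ∀ l, l < L → ∑ i ∈ Finset.range (l + 1), c (i + 1) = c (l + 1) * sz d (l + 1) := by
  intro l
  induction l with
  | zero => intro _; simp [sz]
  | succ l ih =>
    intro hl
    rw [Finset.sum_range_succ, ih (by omega), h (l + 1) (by omega) hl]
    show c (l + 1 + 1) * Tw (l + 1) d * sz d (l + 1) + c (l + 1 + 1) =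
      c (l + 1 + 1) * (1 + Tw (l + 1) d * sz d (l + 1))
    ring

theorem pf_CTT : T_CTT := by
  intro V Q _ L U Hh Vv E ro bt mk ti rk d hs hL hT h0 h2 hl
  have hlev : ∀ l, 1 ≤ l → l < L →
      {v | ro v = l}.ncard = {v | ro v = l + 1}.ncard * Tw l d := by
    intro l h1l hlL
    refine ct_fib (fun v => ro v = l) (fun v => ro v = l + 1) E (Tw l d) ?_ ?_ ?_
    · intro y hy
      obtain ⟨u, ⟨hu1, hu2⟩, _⟩ := hT.par y (by omega) (by omega)
      exact ⟨u, by rw [hu2, hy], hs _ _ hu1⟩
    · intro y x x' hy hx hx' hR hR'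
      obtain ⟨u, _, hu⟩ := hT.par y (by omega) (by omega)
      rw [hu x ⟨hs _ _ hR, by rw [hx, hy]⟩, hu x' ⟨hs _ _ hR', by rw [hx', hy]⟩]
    · intro x hx
      obtain ⟨k, rfl⟩ : ∃ k, l = k + 1 := ⟨l - 1, by omega⟩
      have hb := (hl (k + 1) hlL.le).bij x hx hlL
      have e : {y | ro y = k + 1 ∧ E x y} = {p | Pos E ro (k + 1) x p} := by
        ext p
        exact and_comm
      rw [e, ← Set.ncard_image_of_injOn hb.injOn, hb.image_eq, ct_Iio]
  have hcel : {v | ro v = L}.ncard = {v | ro v = L + 1}.ncard * 2 := by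
    refine ct_fib (fun v => ro v = L) (fun v => ro v = L + 1) E 2 ?_ ?_ ?_
    · intro y hy
      obtain ⟨u, ⟨hu1, hu2⟩, _⟩ := hT.par y (by omega) (by omega)
      exact ⟨u, by rw [hu2, hy], hs _ _ hu1⟩
    · intro y x x' hy hx hx' hR hR'
      obtain ⟨u, _, hu⟩ := hT.par y (by omega) (by omega)
      rw [hu x ⟨hs _ _ hR, by rw [hx, hy]⟩, hu x' ⟨hs _ _ hR', by rw [hx', hy]⟩]
    · intro z hz
      obtain ⟨y, ⟨hy1, hy2, hy3⟩, hyu⟩ := hT.cel z true hz
      obtain ⟨y', ⟨hy1', hy2', hy3'⟩, hyu'⟩ := hT.cel z false hz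
      have hne : y ≠ y' := by
        rintro rfl
        rw [hy3] at hy3'
        exact absurd hy3' (by decide)
      have e : {p | ro p = L ∧ E z p} = {y, y'} := by
        ext p
        simp only [Set.mem_setOf_eq, Set.mem_insert_iff, Set.mem_singleton_iff]
        constructor
        · rintro ⟨hp1, hp2⟩
          cases hm : mk p
          · exact Or.inr (hyu' p ⟨hp2, hp1, hm⟩)
          · exact Or.inl (hyu p ⟨hp2, hp1, hm⟩)
        · rintro (rfl | rfl)
          · exact ⟨hy2, hy1⟩
          · exact ⟨hy2', hy1'⟩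
      rw [e, Set.ncard_pair hne]
  have htot := ct_part ro (L + 3) fun v => by have := hT.rng v; omega
  obtain ⟨k, rfl⟩ : ∃ k, L = k + 1 := ⟨L - 1, by omega⟩
  have hsum := ct_sum (fun i => {v | ro v = i}.ncard) d (k + 1) hlev k (by omega)
  rw [htot, Finset.sum_range_succ, Finset.sum_range_succ, Finset.sum_range_succ', hsum, hcel,
    h0, h2]
  ring

end Pool.Agent.H10.WB
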