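import Pool.Agent.H54.WB.TargetsC

/-!
# Sizes of the models of small NLC-width and grammars
-/

set_option autoImplicit false

namespace Pool.Agent.H10.WB

open Pool.Agent.H54.WB
open Pool.Agent.H69.Sp Pool.Agent.H69.VR Pool.Agent.H8.VR Pool.Agent.H8.MC Pool.Agent.H8.JS
open Pool.Agent.H8.MP (Der der_gen gen_map gen_fin)

theorem ng_mono {m m' : ℕ} (hm : m ≤ m') : ∀ Ψ : MS, Ψ.Below m → Ψ.Below m'
  | .un _ _, h => lt_of_lt_of_le h hm
  | .bi _ _ _, h => lt_of_lt_of_le h hm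
  | .eq _ _, _ => trivial
  | .mem _ _, _ => trivial
  | .mod _ _ _, _ => trivial
  | .neg φ, h => ng_mono hm φ h
  | .and φ ψ, h => ⟨ng_mono hm φ h.1, ng_mono hm ψ h.2⟩
  | .ex _ φ, h => ng_mono hm φ h
  | .exS _ φ, h => ng_mono hm φ h

theorem ng_below : ∀ Ψ : MS, ∃ m, Ψ.Below m
  | .un i _ => ⟨i + 1, Nat.lt_succ_self i⟩
  | .bi i _ _ => ⟨i + 1, Nat.lt_succ_self i⟩
  | .eq _ _ => ⟨0, trivial⟩
  | .mem _ _ => ⟨0, trivial⟩
  | .mod _ _ _ => ⟨0, trivial⟩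
  | .neg φ => ng_below φ
  | .and φ ψ => by
    obtain ⟨m, h⟩ := ng_below φ
    obtain ⟨m', h'⟩ := ng_below ψ
    exact ⟨max m m', ng_mono (le_max_left _ _) φ h, ng_mono (le_max_right _ _) ψ h'⟩
  | .ex _ φ => ng_below φ
  | .exS _ φ => ng_below φ

theorem ng_bz {A : Type} (P : ℕ → A → Prop) (R R' : ℕ → A → A → Prop)
    (h : ∀ a b, R 0 a b ↔ R' 0 a b) : ∀ Ψ : MS, BinZero Ψ → ∀ (e : ℕ → A) (V : ℕ → Set A),
    (Ψ.Sat P R e V ↔ Ψ.Sat P R' e V)
  | .un _ _, _, _, _ => Iff.rfl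
  | .bi i x y, hb, e, V => by
    have hi : i = 0 := hb
    subst hi
    exact h _ _
  | .eq _ _, _, _, _ => Iff.rfl
  | .mem _ _, _, _, _ => Iff.rfl
  | .mod _ _ _, _, _, _ => Iff.rfl
  | .neg φ, hb, e, V => not_congr (ng_bz P R R' h φ hb e V)
  | .and φ ψ, hb, e, V => and_congr (ng_bz P R R' h φ hb.1 e V) (ng_bz P R R' h ψ hb.2 e V)
  | .ex _ φ, hb, _, _ => exists_congr fun _ => ng_bz P R R' h φ hb _ _
  | .exS _ φ, hb, _, _ => exists_congr fun _ => ng_bz P R R' h φ hb _ _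

/-- `R 0` is symmetric and irreflexive -/
def ngPsi (Ψ : MS) : MS :=
  .and Ψ (.and (.neg (.ex 0 (.ex 1 (.and (.bi 0 0 1) (.neg (.bi 0 1 0))))))
    (.neg (.ex 0 (.bi 0 0 0))))

theorem ng_psi {A : Type} [Nonempty A] (P : ℕ → A → Prop) (R : ℕ → A → A → Prop) (Ψ : MS) :
    (∀ (e : ℕ → A) (V : ℕ → Set A), (ngPsi Ψ).Sat P R e V) ↔
      (∀ (e : ℕ → A) (V : ℕ → Set A), Ψ.Sat P R e V) ∧ (∀ a b, R 0 a b → R 0 b a) ∧
        ∀ a, ¬ R 0 a a := by
  have h01 : ∀ (e : ℕ → A) (a b : A), Function.update (Function.update e 0 a) 1 b 0 = a :=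
    fun e a b => by rw [Function.update_of_ne (by decide), Function.update_self]
  have h11 : ∀ (e : ℕ → A) (a b : A), Function.update (Function.update e 0 a) 1 b 1 = b :=
    fun e a b => Function.update_self _ _ _
  have h00 : ∀ (e : ℕ → A) (a : A), Function.update e 0 a 0 = a :=
    fun e a => Function.update_self _ _ _
  constructor
  · intro h
    refine ⟨fun e V => (h e V).1, fun a b hab => ?_, fun a ha => ?_⟩
    · obtain ⟨x⟩ := ‹Nonempty A›
      have h1 := (h (fun _ => x) (fun _ => ∅)).2.1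
      by_contra hba
      refine h1 ⟨a, b, ?_, ?_⟩
      · show R 0 _ _
        rw [h01, h11]
        exact hab
      · show ¬ R 0 _ _
        rw [h01, h11]
        exact hba
    · obtain ⟨x⟩ := ‹Nonempty A›
      have h1 := (h (fun _ => x) (fun _ => ∅)).2.2
      refine h1 ⟨a, ?_⟩
      show R 0 _ _
      rw [h00]
      exact ha
  · rintro ⟨h1, h2, h3⟩ e V
    refine ⟨h1 e V, ?_, ?_⟩
    · rintro ⟨a, b, hab, hba⟩
      have k1 : R 0 a b := by
        have : R 0 (Function.update (Function.update e 0 a) 1 b 0)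
          (Function.update (Function.update e 0 a) 1 b 1) := hab
        rwa [h01, h11] at this
      have k2 : ¬ R 0 b a := by
        have : ¬ R 0 (Function.update (Function.update e 0 a) 1 b 1)
          (Function.update (Function.update e 0 a) 1 b 0) := hba
        rwa [h01, h11] at this
      exact k2 (h2 a b k1)
    · rintro ⟨a, ha⟩
      have k1 : R 0 a a := by
        have : R 0 (Function.update e 0 a 0) (Function.update e 0 a 0) := ha
        rwa [h00] at this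
      exact h3 a k1

theorem ng_up {A : Type} {k : ℕ} (m : ℕ) {R : ℕ → A → A → Prop} {X : Set A} {c : A → Fin k}
    (h : NLC k 1 R X c) : NLC k m (fun i u v => i = 0 ∧ R 0 u v) X c := by
  induction h with
  | pt a c => exact NLC.pt a c
  | op X Y c c₁ c₂ h₁ h₂ hd l r f g hR hX hY ih1 ih2 =>
    refine NLC.op X Y c c₁ c₂ ih1 ih2 hd (fun i p q => i = 0 ∧ l 0 p q)
      (fun i p q => i = 0 ∧ r 0 p q) f g (fun a ha b hb i _ => ?_) hX hY
    have := hR a ha b hb 0 Nat.one_pos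
    exact ⟨and_congr_right fun _ => this.1, and_congr_right fun _ => this.2⟩

theorem ng_down {A : Type} {k m : ℕ} (hm : 0 < m) {R : ℕ → A → A → Prop} {X : Set A}
    {c : A → Fin k} (h : NLC k m R X c) : NLC k 1 (fun _ => R 0) X c := by
  induction h with
  | pt a c => exact NLC.pt a c
  | op X Y c c₁ c₂ h₁ h₂ hd l r f g hR hX hY ih1 ih2 =>
    exact NLC.op X Y c c₁ c₂ ih1 ih2 hd (fun _ => l 0) (fun _ => r 0) f g
      (fun a ha b hb i _ => hR a ha b hb 0 hm) hX hY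

theorem ng_D {k m : ℕ} {φ : MS} : ∀ o ∈ (ext (cwG k m) () φ).ops, o.D = {n | 0 < n} := by
  intro y hy
  obtain ⟨o, ho, a, b, -, -, -, -, -, -, h, -⟩ := mem_ops.1 hy
  rw [h]
  obtain ⟨x, -, rfl⟩ := List.mem_map.1 ho
  rfl

theorem pf_NGS : T_NGS := by
  intro Ψ hΨ
  obtain ⟨m₀, hm₀⟩ := ng_below Ψ
  have hm : 0 < m₀ + 1 := Nat.succ_pos _
  have hb1 : (ngPsi Ψ).Below (m₀ + 1) :=
    ⟨ng_mono (Nat.le_succ _) Ψ hm₀, ⟨hm, hm⟩, hm⟩
  have hb := MS.below_clo hb1 (ngPsi Ψ).vb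
  refine ⟨(ngPsi Ψ).clo (ngPsi Ψ).vb, fun k => ⟨ext (cwG k (m₀ + 1)) () _, none, fun n => ?_⟩⟩
  constructor
  · rintro ⟨hn, P, G, ⟨c, hc⟩, hM⟩
    have : Nonempty (Fin n) := ⟨⟨0, hn⟩⟩
    have h1 := nlc_gen (P := P) (ng_up (m₀ + 1) hc)
    have h2 : ∀ (e : ℕ → Fin n) (V : ℕ → Set (Fin n)),
        (ngPsi Ψ).Sat P (fun i u v => i = 0 ∧ G.Adj u v) e V :=
      (ng_psi P _ Ψ).2 ⟨fun e V => (ng_bz P _ _ (fun a b => ⟨fun h => ⟨rfl, h⟩, fun h => h.2⟩) Ψ hΨ
        e V).1 (hM e V), fun a b h => ⟨rfl, h.2.symm⟩, fun a h => G.irrefl h.2⟩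
    have h3 := (gen_of_gen (s₀ := ()) hb h1).2 rfl ((dec_iff c (ngPsi Ψ)).2 h2)
    have h4 := (gen_fin h3).2
    rwa [Set.ncard_univ, Nat.card_fin] at h4
  · intro h
    have hn := h.pos
    obtain ⟨A, _, P, R, c, h1, h2⟩ := der_gen (m := m₀ + 1) ng_D h
    have e := Fintype.equivFinOfCardEq h1
    have h3 := gen_map h2 e e.injective (fun i a => P i (e.symm a))
      (fun i a b => R i (e.symm a) (e.symm b)) (fun a => c (e.symm a))
      (fun i a => by simp) (fun i a b => by simp) (fun a _ => by simp)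
    have h4 : e '' Set.univ = Set.univ := by
      rw [Set.image_univ]
      exact e.surjective.range_eq
    rw [h4] at h3
    have : Nonempty (Fin n) := ⟨⟨0, hn⟩⟩
    obtain ⟨h5, h6⟩ := good_of_gen hb h3
    obtain ⟨h7, h8, h9⟩ := (ng_psi _ _ Ψ).1 ((dec_iff _ (ngPsi Ψ)).1 h6)
    refine ⟨hn, fun i a => P i (e.symm a),
      { Adj := fun a b => R 0 (e.symm a) (e.symm b), symm := ⟨h8⟩, loopless := ⟨h9⟩ },
      ⟨_, ng_down hm (gen_nlc h5)⟩, fun e' V => ?_⟩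
    exact (ng_bz _ (fun i a b => R i (e.symm a) (e.symm b)) _ (fun a b => Iff.rfl) Ψ hΨ e' V).1
      (h7 e' V)

end Pool.Agent.H10.WB
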