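import Pool.Agent.H54.WB.TargetsB

/-!
# Second-order logic on small numbers in the calculus
-/

set_option autoImplicit false

namespace Pool.Agent.H10.WB

open Pool.Agent.H54.WB Pool.Agent.H76.ADV

/-- the sets -/
def soV (nf : ℕ → ℕ) (sv : ℕ → ℕ → ℕ) (u X a : ℕ) : Prop := a < nf u ∧ (sv X u).testBit a = true

/-- the relations -/
def soR (nf : ℕ → ℕ) (rv : ℕ → ℕ → ℕ) (u i a b : ℕ) : Prop :=
  a < nf u ∧ b < nf u ∧ (rv i u).testBit (a * nf u + b) = true

/-! ### numbers -/

theorem so_two_pow {n : ℕ → ℕ} (hn : ∀ u, n u * n u ≤ Nat.log 2 u) (u : ℕ) :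
    2 ^ (n u * n u) ≤ (u + 2) ^ 1 := by
  rw [pow_one]
  rcases Nat.eq_zero_or_pos u with rfl | hu
  · have h := hn 0
    rw [Nat.log_zero_right] at h
    rw [Nat.le_zero.1 h]
    omega
  · have h1 : 2 ^ (n u * n u) ≤ 2 ^ Nat.log 2 u := Nat.pow_le_pow_right (by omega) (hn u)
    have h2 := Nat.pow_log_le_self 2 (by omega : u ≠ 0)
    omega

theorem so_snd {n : ℕ → ℕ} (hn : ∀ u, n u * n u ≤ Nat.log 2 u) (w : ℕ) :
    n (Nat.unpair w).2 * n (Nat.unpair w).2 ≤ Nat.log 2 w :=
  (hn _).trans (Nat.log_mono_right (Nat.unpair_right_le w))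

theorem so_grsq {n : ℕ → ℕ} (hg : GR n) (hn : ∀ u, n u * n u ≤ Nat.log 2 u) :
    GR (fun u => 2 ^ (n u * n u)) := GR.pow (hg.mul hg) 1 (so_two_pow hn)

theorem so_gr1 {n : ℕ → ℕ} (hg : GR n) (hn : ∀ u, n u * n u ≤ Nat.log 2 u) :
    GR (fun u => 2 ^ n u) :=
  GR.pow hg 1 fun u => (Nat.pow_le_pow_right (by omega) (Nat.le_mul_self _)).trans (so_two_pow hn u)

theorem so_min {f g : ℕ → ℕ} (hf : GR f) (hg : GR g) : GR (fun u => min (f u) (g u)) := by
  have h := hf.sub (hf.sub hg)
  have e : (fun u => f u - (f u - g u)) = fun u => min (f u) (g u) := by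
    funext u
    omega
  rwa [e] at h

theorem so_bit {s i n : ℕ → ℕ} (hs : GR s) (hi : GR i) (hg : GR n)
    (hn : ∀ u, n u * n u ≤ Nat.log 2 u) :
    RL (fun u => i u < n u * n u ∧ (s u).testBit (i u) = true) ∧
      RL (fun u => ¬ (i u < n u * n u ∧ (s u).testBit (i u) = true)) := by
  have hm : GR (fun u => min (i u) (n u * n u)) := so_min hi (hg.mul hg)
  have hp : GR (fun u => 2 ^ min (i u) (n u * n u)) :=
    GR.pow hm 1 fun u => (Nat.pow_le_pow_right (by omega) (min_le_right _ _)).trans (so_two_pow hn u)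
  have hq := (hs.div hp).mod (GR.num 2)
  have key : ∀ u, i u < n u * n u → ((s u).testBit (i u) = true ↔
      s u / 2 ^ min (i u) (n u * n u) % 2 = 1) := by
    intro u hu
    rw [min_eq_left hu.le, Nat.testBit_eq_decide_div_mod_eq, decide_eq_true_iff]
  constructor
  · refine ((RL.lt hi (hg.mul hg)).and (RL.eq hq (GR.num 1))).congr fun u => ?_
    exact and_congr_right fun hu => (key u hu).symm
  · refine ((RL.le (hg.mul hg) hi).or ((RL.lt hi (hg.mul hg)).and (RL.ne hq (GR.num 1)))).congr
      fun u => ?_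
    constructor
    · rintro (h | ⟨h1, h2⟩) ⟨h3, h4⟩
      · omega
      · exact h2 ((key u h3).1 h4)
    · intro h
      rcases Nat.lt_or_ge (i u) (n u * n u) with h1 | h1
      · exact Or.inr ⟨h1, fun h2 => h ⟨h1, (key u h1).2 h2⟩⟩
      · exact Or.inl h1

theorem so_mem {s i n : ℕ → ℕ} (hs : GR s) (hi : GR i) (hg : GR n)
    (hn : ∀ u, n u * n u ≤ Nat.log 2 u) :
    RL (fun u => i u < n u ∧ (s u).testBit (i u) = true) ∧
      RL (fun u => ¬ (i u < n u ∧ (s u).testBit (i u) = true)) := by
  obtain ⟨h1, h2⟩ := so_bit hs hi hg hn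
  have key : ∀ u, i u < n u → i u < n u * n u := fun u hu => by
    have := Nat.le_mul_self (n u)
    omega
  constructor
  · refine ((RL.lt hi hg).and h1).congr fun u => ?_
    exact ⟨fun h => ⟨h.1, h.2.2⟩, fun h => ⟨h.1, key u h.1, h.2⟩⟩
  · refine ((RL.le hg hi).or h2).congr fun u => ?_
    constructor
    · rintro (h | h) ⟨h3, h4⟩
      · omega
      · exact h ⟨key u h3, h4⟩
    · intro h
      rcases Nat.lt_or_ge (i u) (n u) with h3 | h3
      · exact Or.inr fun h4 => h ⟨h3, h4.2⟩
      · exact Or.inl h3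

theorem so_rel {s i j n : ℕ → ℕ} (hs : GR s) (hi : GR i) (hj : GR j) (hg : GR n)
    (hn : ∀ u, n u * n u ≤ Nat.log 2 u) :
    RL (fun u => i u < n u ∧ j u < n u ∧ (s u).testBit (i u * n u + j u) = true) ∧
      RL (fun u => ¬ (i u < n u ∧ j u < n u ∧ (s u).testBit (i u * n u + j u) = true)) := by
  obtain ⟨h1, h2⟩ := so_bit hs ((hi.mul hg).add hj) hg hn
  have key : ∀ u, i u < n u → j u < n u → i u * n u + j u < n u * n u := fun u hu hv => by
    have : (i u + 1) * n u ≤ n u * n u := Nat.mul_le_mul_right _ hu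
    rw [Nat.add_mul, one_mul] at this
    omega
  constructor
  · refine ((RL.lt hi hg).and ((RL.lt hj hg).and h1)).congr fun u => ?_
    exact ⟨fun h => ⟨h.1, h.2.1, h.2.2.2⟩, fun h => ⟨h.1, h.2.1, key u h.1 h.2.1, h.2.2⟩⟩
  · refine ((RL.le hg hi).or ((RL.le hg hj).or h2)).congr fun u => ?_
    constructor
    · rintro (h | h | h) ⟨h3, h4, h5⟩
      · omega
      · omega
      · exact h ⟨key u h3 h4, h5⟩
    · intro h
      rcases Nat.lt_or_ge (i u) (n u) with h3 | h3
      · rcases Nat.lt_or_ge (j u) (n u) with h4 | h4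
        · exact Or.inr (Or.inr fun h5 => h ⟨h3, h4, h5.2⟩)
        · exact Or.inr (Or.inl h4)
      · exact Or.inl h3

/-! ### counting -/

theorem so_card {s n f : ℕ → ℕ} (hs : GR s) (hg : GR n) (hn : ∀ u, n u * n u ≤ Nat.log 2 u)
    (hf : GR f) :
    RL (fun u => f u ≤ Set.ncard {a | a < n u ∧ (a < n u ∧ (s u).testBit a = true)}) ∧
      RL (fun u => f u ≤ Set.ncard {a | a < n u ∧ ¬ (a < n u ∧ (s u).testBit a = true)}) := by
  obtain ⟨h1, h2⟩ := so_mem (n := fun w => n (Nat.unpair w).2) (hs.comp GR.snd') GR.fst'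
    (hg.comp GR.snd') (so_snd hn)
  exact ⟨RL.card (R := fun a u => a < n u ∧ (s u).testBit a = true) h1 hf hg,
    RL.card (R := fun a u => ¬ (a < n u ∧ (s u).testBit a = true)) h2 hf hg⟩

theorem so_compl (n s : ℕ) : Set.ncard {a | a < n ∧ (a < n ∧ s.testBit a = true)} +
    Set.ncard {a | a < n ∧ ¬ (a < n ∧ s.testBit a = true)} = n := by
  rw [← Set.ncard_union_eq ?_ ((Set.finite_Iio n).subset fun a ha => ha.1)
    ((Set.finite_Iio n).subset fun a ha => ha.1)]
  · have e : {a | a < n ∧ (a < n ∧ s.testBit a = true)} ∪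
        {a | a < n ∧ ¬ (a < n ∧ s.testBit a = true)} = ↑(Finset.range n) := by
      ext a
      simp only [Set.mem_union, Set.mem_ofPred_eq, Finset.coe_range, Set.mem_Iio]
      tauto
    rw [e, Set.ncard_coe_finset, Finset.card_range]
  · rw [Set.disjoint_left]
    rintro a ⟨_, h1⟩ ⟨_, h2⟩
    exact h2 h1

theorem so_count {s n : ℕ → ℕ} (hs : GR s) (hg : GR n) (hn : ∀ u, n u * n u ≤ Nat.log 2 u)
    {D : ℕ → Prop} (hD : RL D) :
    RL (fun u => D (Set.ncard {a | a < n u ∧ (a < n u ∧ (s u).testBit a = true)})) := by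
  have h1 := (so_card (n := fun w => n (Nat.unpair w).2) (hs.comp GR.snd') (hg.comp GR.snd')
    (so_snd hn) GR.fst').1
  have h2 := (so_card (n := fun w => n (Nat.unpair w).2) (hs.comp GR.snd') (hg.comp GR.snd')
    (so_snd hn) ((hg.comp GR.snd').sub GR.fst')).2
  have h3 := RL.ex (R := fun c u => (c ≤ Set.ncard {a | a < n u ∧ (a < n u ∧
      (s u).testBit a = true)} ∧ n u - c ≤ Set.ncard {a | a < n u ∧
      ¬ (a < n u ∧ (s u).testBit a = true)}) ∧ D c) ((h1.and h2).and (hD.comp GR.fst'))
      (hg.add (GR.num 1))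
  refine h3.congr fun u => ?_
  have h4 := so_compl (n u) (s u)
  constructor
  · rintro ⟨c, hc, ⟨h5, h6⟩, h7⟩
    have : c = Set.ncard {a | a < n u ∧ (a < n u ∧ (s u).testBit a = true)} := by omega
    rwa [this] at h7
  · intro h
    exact ⟨_, by omega, ⟨le_rfl, by omega⟩, h⟩

/-! ### quantifiers -/

theorem so_quant {R : ℕ → ℕ → Prop} {g : ℕ → ℕ}
    (h : RL (fun w => R (Nat.unpair w).1 (Nat.unpair w).2) ∧
      RL (fun w => ¬ R (Nat.unpair w).1 (Nat.unpair w).2)) (hg : GR g) :
    RL (fun u => ∃ s, s < g u ∧ R s u) ∧ RL (fun u => ¬ ∃ s, s < g u ∧ R s u) := by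
  refine ⟨RL.ex h.1 hg, (RL.all (R := fun s u => ¬ R s u) h.2 hg).congr fun u => ?_⟩
  constructor
  · rintro h1 ⟨s, hs, h2⟩
    exact h1 s hs h2
  · intro h1 s hs h2
    exact h1 ⟨s, hs, h2⟩

theorem so_congr {R R' : ℕ → Prop} (h : RL R ∧ RL (fun u => ¬ R u)) (e : ∀ u, R u ↔ R' u) :
    RL R' ∧ RL (fun u => ¬ R' u) := ⟨h.1.congr e, h.2.congr fun u => not_congr (e u)⟩

theorem so_code (n : ℕ) (A : ℕ → Prop) : ∃ s, s < 2 ^ n ∧ ∀ a < n, (s.testBit a = true ↔ A a) := by
  classical
  refine ⟨Nat.ofBits fun i : Fin n => decide (A i), Nat.ofBits_lt_two_pow _, fun a ha => ?_⟩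
  rw [Nat.testBit_ofBits_lt _ _ ha, decide_eq_true_iff]

theorem so_main (φ : SO) : ∀ (nf kf : ℕ → ℕ) (ev sv rv : ℕ → ℕ → ℕ), GR nf → GR kf →
    (∀ u, nf u * nf u ≤ Nat.log 2 u) → (∀ x, GR (ev x)) → (∀ X, GR (sv X)) → (∀ i, GR (rv i)) →
    RL (fun u => φ.Sat (nf u) (kf u) (fun x => ev x u) (soV nf sv u) (soR nf rv u)) ∧
    RL (fun u => ¬ φ.Sat (nf u) (kf u) (fun x => ev x u) (soV nf sv u) (soR nf rv u)) := by
  induction φ with
  | lt x y =>
    intro nf kf ev sv rv hn hk hb he hs hr
    exact ⟨RL.lt (he x) (he y), (RL.le (he y) (he x)).congr fun u => not_lt.symm⟩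
  | ltk x =>
    intro nf kf ev sv rv hn hk hb he hs hr
    exact ⟨RL.lt (he x) hk, (RL.le hk (he x)).congr fun u => not_lt.symm⟩
  | eq x y =>
    intro nf kf ev sv rv hn hk hb he hs hr
    exact ⟨RL.eq (he x) (he y), RL.ne (he x) (he y)⟩
  | mem x X =>
    intro nf kf ev sv rv hn hk hb he hs hr
    exact so_mem (hs X) (he x) hn hb
  | rel i x y =>
    intro nf kf ev sv rv hn hk hb he hs hr
    exact so_rel (hr i) (he x) (he y) hn hb
  | mod X q r =>
    intro nf kf ev sv rv hn hk hb he hs hr
    have h1 : RL (fun c => c % (q + 1) = r % (q + 1)) :=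
      RL.eq (GR.id.mod (GR.num (q + 1))) (GR.num (r % (q + 1)))
    have h2 : RL (fun c => c % (q + 1) ≠ r % (q + 1)) :=
      RL.ne (GR.id.mod (GR.num (q + 1))) (GR.num (r % (q + 1)))
    exact ⟨so_count (hs X) hn hb h1, so_count (hs X) hn hb h2⟩
  | neg φ ih =>
    intro nf kf ev sv rv hn hk hb he hs hr
    obtain ⟨h1, h2⟩ := ih nf kf ev sv rv hn hk hb he hs hr
    exact ⟨h2, h1.congr fun u => not_not.symm⟩
  | and φ ψ ih ih' =>
    intro nf kf ev sv rv hn hk hb he hs hr
    obtain ⟨h1, h2⟩ := ih nf kf ev sv rv hn hk hb he hs hr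
    obtain ⟨h3, h4⟩ := ih' nf kf ev sv rv hn hk hb he hs hr
    exact ⟨h1.and h3, (h2.or h4).congr fun u => not_and_or.symm⟩
  | ex x φ ih =>
    intro nf kf ev sv rv hn hk hb he hs hr
    have h := ih (fun w => nf (Nat.unpair w).2) (fun w => kf (Nat.unpair w).2)
      (Function.update (fun y w => ev y (Nat.unpair w).2) x fun w => (Nat.unpair w).1)
      (fun X w => sv X (Nat.unpair w).2) (fun i w => rv i (Nat.unpair w).2)
      (hn.comp GR.snd') (hk.comp GR.snd') (so_snd hb) (fun y => by
        by_cases hy : y = x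
        · subst hy
          rw [Function.update_self]
          exact GR.fst'
        · rw [Function.update_of_ne hy]
          exact (he y).comp GR.snd')
      (fun X => (hs X).comp GR.snd') (fun i => (hr i).comp GR.snd')
    have e : ∀ w, (fun y => (Function.update (fun y w => ev y (Nat.unpair w).2) x
        fun w => (Nat.unpair w).1) y w) =
        Function.update (fun y => ev y (Nat.unpair w).2) x (Nat.unpair w).1 := by
      intro w
      funext y
      by_cases hy : y = x
      · subst hy
        rw [Function.update_self, Function.update_self]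
      · rw [Function.update_of_ne hy, Function.update_of_ne hy]
    exact so_quant (R := fun a u => φ.Sat (nf u) (kf u) (Function.update (fun y => ev y u) x a)
      (soV nf sv u) (soR nf rv u)) (so_congr h fun w => by rw [e w]; exact Iff.rfl) hn
  | exS X φ ih =>
    intro nf kf ev sv rv hn hk hb he hs hr
    have h := ih (fun w => nf (Nat.unpair w).2) (fun w => kf (Nat.unpair w).2)
      (fun y w => ev y (Nat.unpair w).2)
      (Function.update (fun Y w => sv Y (Nat.unpair w).2) X fun w => (Nat.unpair w).1)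
      (fun i w => rv i (Nat.unpair w).2)
      (hn.comp GR.snd') (hk.comp GR.snd') (so_snd hb) (fun y => (he y).comp GR.snd')
      (fun Y => by
        by_cases hy : Y = X
        · subst hy
          rw [Function.update_self]
          exact GR.fst'
        · rw [Function.update_of_ne hy]
          exact (hs Y).comp GR.snd')
      (fun i => (hr i).comp GR.snd')
    have e : ∀ w, soV (fun w => nf (Nat.unpair w).2)
        (Function.update (fun Y w => sv Y (Nat.unpair w).2) X fun w => (Nat.unpair w).1) w =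
        Function.update (soV nf sv (Nat.unpair w).2) X
          (fun a => a < nf (Nat.unpair w).2 ∧ ((Nat.unpair w).1).testBit a = true) := by
      intro w
      funext Y
      by_cases hy : Y = X
      · subst hy
        rw [Function.update_self]
        funext a
        simp only [soV, Function.update_self]
      · rw [Function.update_of_ne hy]
        funext a
        simp only [soV, Function.update_of_ne hy]
    refine so_congr (so_quant (R := fun s u => φ.Sat (nf u) (kf u) (fun y => ev y u)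
      (Function.update (soV nf sv u) X (fun a => a < nf u ∧ s.testBit a = true)) (soR nf rv u))
      (so_congr h fun w => by rw [e w]; exact Iff.rfl) (so_gr1 hn hb)) fun u => ?_
    constructor
    · rintro ⟨s, _, h1⟩
      exact ⟨_, fun a ha => ha.1, h1⟩
    · rintro ⟨S, hS, h1⟩
      obtain ⟨s, hs1, hs2⟩ := so_code (nf u) S
      refine ⟨s, hs1, ?_⟩
      have : (fun a => a < nf u ∧ s.testBit a = true) = S := by
        funext a
        exact propext ⟨fun h2 => (hs2 a h2.1).1 h2.2, fun h2 => ⟨hS a h2, (hs2 a (hS a h2)).2 h2⟩⟩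
      show φ.Sat (nf u) (kf u) (fun y => ev y u)
        (Function.update (soV nf sv u) X (fun a => a < nf u ∧ s.testBit a = true)) (soR nf rv u)
      rw [this]
      exact h1
  | exR i φ ih =>
    intro nf kf ev sv rv hn hk hb he hs hr
    have h := ih (fun w => nf (Nat.unpair w).2) (fun w => kf (Nat.unpair w).2)
      (fun y w => ev y (Nat.unpair w).2) (fun X w => sv X (Nat.unpair w).2)
      (Function.update (fun j w => rv j (Nat.unpair w).2) i fun w => (Nat.unpair w).1)
      (hn.comp GR.snd') (hk.comp GR.snd') (so_snd hb) (fun y => (he y).comp GR.snd')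
      (fun X => (hs X).comp GR.snd')
      (fun j => by
        by_cases hy : j = i
        · subst hy
          rw [Function.update_self]
          exact GR.fst'
        · rw [Function.update_of_ne hy]
          exact (hr j).comp GR.snd')
    have e : ∀ w, soR (fun w => nf (Nat.unpair w).2)
        (Function.update (fun j w => rv j (Nat.unpair w).2) i fun w => (Nat.unpair w).1) w =
        Function.update (soR nf rv (Nat.unpair w).2) i
          (fun a b => a < nf (Nat.unpair w).2 ∧ b < nf (Nat.unpair w).2 ∧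
            ((Nat.unpair w).1).testBit (a * nf (Nat.unpair w).2 + b) = true) := by
      intro w
      funext j
      by_cases hy : j = i
      · subst hy
        rw [Function.update_self]
        funext a b
        simp only [soR, Function.update_self]
      · rw [Function.update_of_ne hy]
        funext a b
        simp only [soR, Function.update_of_ne hy]
    refine so_congr (so_quant (R := fun s u => φ.Sat (nf u) (kf u) (fun y => ev y u) (soV nf sv u)
      (Function.update (soR nf rv u) i (fun a b => a < nf u ∧ b < nf u ∧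
        s.testBit (a * nf u + b) = true)))
      (so_congr h fun w => by rw [e w]; exact Iff.rfl) (so_grsq hn hb)) fun u => ?_
    constructor
    · rintro ⟨s, _, h1⟩
      exact ⟨_, fun a b ha => ⟨ha.1, ha.2.1⟩, h1⟩
    · rintro ⟨r, hS, h1⟩
      obtain ⟨s, hs1, hs2⟩ := so_code (nf u * nf u) fun m => r (m / nf u) (m % nf u)
      refine ⟨s, hs1, ?_⟩
      have key : ∀ a b, a < nf u → b < nf u →
          (s.testBit (a * nf u + b) = true ↔ r a b) := by
        intro a b ha hb'
        have h2 : a * nf u + b < nf u * nf u := by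
          have : (a + 1) * nf u ≤ nf u * nf u := Nat.mul_le_mul_right _ ha
          rw [Nat.add_mul, one_mul] at this
          omega
        rw [hs2 _ h2, show (a * nf u + b) / nf u = a by
            rw [mul_comm, Nat.mul_add_div (by omega), Nat.div_eq_of_lt hb', add_zero],
          show (a * nf u + b) % nf u = b by
            rw [mul_comm, Nat.mul_add_mod, Nat.mod_eq_of_lt hb']]
      have : (fun a b => a < nf u ∧ b < nf u ∧ s.testBit (a * nf u + b) = true) = r := by
        funext a b
        exact propext ⟨fun h2 => (key a b h2.1 h2.2.1).1 h2.2.2, fun h2 =>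
          ⟨(hS a b h2).1, (hS a b h2).2, (key a b (hS a b h2).1 (hS a b h2).2).2 h2⟩⟩
      show φ.Sat (nf u) (kf u) (fun y => ev y u) (soV nf sv u)
        (Function.update (soR nf rv u) i (fun a b => a < nf u ∧ b < nf u ∧
          s.testBit (a * nf u + b) = true))
      rw [this]
      exact h1

theorem pf_SOR : T_SOR := by
  intro φ nf kf hn hk hb
  have h := so_main φ nf kf (fun _ _ => 0) (fun _ _ => 0) (fun _ _ => 0) hn hk hb
    (fun _ => GR.num 0) (fun _ => GR.num 0) (fun _ => GR.num 0)
  refine so_congr h fun u => ?_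
  have e1 : soV nf (fun _ _ => 0) u = fun _ _ => False := by
    funext X a
    simp [soV]
  have e2 : soR nf (fun _ _ => 0) u = fun _ _ _ => False := by
    funext i a b
    simp [soR]
  rw [e1, e2]
  exact Iff.rfl

end Pool.Agent.H10.WB
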